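import Pool.Agent.Helper1K9.PK.Expl
import Pool.Agent.Helper1K9.PK.Crit

/-!
MP_160ed4_ag, Q1: the five conditions of the generalized Green-Griffiths-Lang conjecture for the
quasi-projective varieties over abelian covers of a product of projective lines which are branched
over fibres of the projections to the factors.

`Pool/Agent/Helper1K9/PK/Defs.lean` defines the covers `X` (`Cover`, `Cover.Pt`) and the condition
`Cover.Big` on the multiplicities. In `Pool/Agent/Helper1K9/PK/Crit.lean` it is proved that it holds
for the cyclic cover `y ^ m = ∏_i ∏_j (t_i - c i j)` if, for all `i`, the number `s i` of the points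
`c i j` is divisible by `m` and `n q + 2 m < m s i`, where `q` is the number of the `c i j` whose
fibre is not removed from the cover (so the condition is `n s i < m (s i - 2)` if no fibres are
removed), and `big_of` is a criterion for all covers.

The function-field language of the starting repository is used for the varieties: `Pts U F` is the
cone over the quasi-projective variety `V = {F = 0, x_j ≠ 0 for all j in U}`; `SubVarU U F L w x`
means that `L` is the function field, and `x` the generic point, of a closed subvariety of dimension
`w` of it, and `OffU U x` are the places of `L` whose centre is not on `V`.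
-/

set_option autoImplicit false

namespace Pool.Agent.Helper1K9.Old.ProductCovers

open Pool.Agent.W602.GT Pool.Agent.H159R3.GGLLog Pool.Agent.W603.BP Pool.Agent.Y190.AN
  Pool.Agent.Helper1K9.PK Metric Topology

/-- Let `X` be a cover `y_k ^ (m k) = ∏_i ∏_j (t_i - c i j) ^ (e k i j)` of a product of `n`
projective lines, without the fibres over some of the points `c i j`. Suppose that, for some weights
`p i j / Q`, all curve germs on `X` which meet a fibre over a point `c i j`, with the intersection
multiplicities `v i j`, satisfy `∑ (p i j / Q) v i j ≥ 1`, and that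
`s i - 2 > n ∑_j (p i j / Q)` for all `i`, where `s i` is the number of the points `c i j` on the
`i`-th line.

(1) Let `V` be a quasi-projective variety of positive dimension, with the generic point `x` and the
function field `L`, and let `(t, y)` be a rational map from `V` to `X`, which is generically finite
onto its image, such that the image is not contained in a fibre over a point `c i j` and such that
the functions `1 / (t_i - c i j)` are regular on `V` if the fibre over `c i j` is not in `X`. (For
instance, `V` is `X` or a closed subvariety of `X`.) Then `V` is of log general type, and the special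
sets of `V`, the Zariski closures of the unions of the closed subvarieties of positive dimension
which are not of log general type, of the images of the punctured disc under holomorphic maps with
an essential singularity, of the entire curves, of the images of the meromorphic maps from the
spaces `ℂ ^ g` which are holomorphic maps to `V` outside a set of codimension at least two, and of
the images of the multiplicative group, are all different from `V`.

(2) All holomorphic maps from the punctured disc to `X` whose image is not contained in a fibre over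
a point `c i j` extend to the disc: all meromorphic functions `t_i`, `y_k` on the punctured disc
which satisfy the equations and such that `t_i` does not take the values `c i j` whose fibre is
removed, and is not equal to any `c i j`, are meromorphic at the centre; if they are meromorphic
functions on the complex plane, then the `t_i` are constant. -/
theorem result {n r : ℕ} (X : Cover n r) (hX : X.Big) :
    (∀ (M : ℕ) (U : Set (Fin (M + 1))) (ι : Type) (F : ι → MvPolynomial (Fin (M + 1)) ℂ)
      (L : Type) [Field L] [Algebra ℂ L] (w : ℕ) (x : Fin (M + 1) → L), 1 ≤ w →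
      SubVarU U F L w x →
      (∀ G : MvPolynomial (Fin (M + 1)) ℂ, IsForm G →
        (val x G = 0 ↔ ∀ z ∈ Pts U F, MvPolynomial.eval z G = 0)) →
      ∀ (t : Fin n → L) (y : Fin r → L), X.Pt t y →
        Algebra.IsAlgebraic (IntermediateField.adjoin ℂ (Set.range t)) L →
        (∀ i j, j ∈ X.bd i → RegularOn U x (t i - algebraMap ℂ L (X.c i j))⁻¹) →
        LogGeneralType ℂ L w (OffU U x) ∧ SpAlgU U F ≠ Pts U F ∧ SpP U F ≠ Pts U F ∧
          SpH U F ≠ Pts U F ∧ SpCg U F ≠ Pts U F ∧ SpT U F ≠ Pts U F) ∧
    (∀ (t : Fin n → ℂ → ℂ) (y : Fin r → ℂ → ℂ),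
      (∀ i, MeromorphicOn (t i) (ball 0 1 \ {0})) → (∀ k, MeromorphicOn (y k) (ball 0 1 \ {0})) →
      (∀ z ∈ ball (0 : ℂ) 1 \ {0}, ∀ᶠ w in 𝓝[≠] z, ∀ k,
        y k w ^ X.m k = ∏ i, ∏ j, (t i w - X.c i j) ^ X.e k i j) →
      (∀ i j, ∃ z ∈ ball (0 : ℂ) 1 \ {0}, ∃ᶠ w in 𝓝[≠] z, t i w ≠ X.c i j) →
      (∀ i, ∀ j ∈ X.bd i, ∀ z ∈ ball (0 : ℂ) 1 \ {0},
        meromorphicOrderAt (fun w => t i w - X.c i j) z ≤ 0) →
      ∃ (t' : Fin n → ℂ → ℂ) (y' : Fin r → ℂ → ℂ), (∀ i, MeromorphicAt (t' i) 0) ∧
        (∀ k, MeromorphicAt (y' k) 0) ∧ ∀ z ∈ ball (0 : ℂ) 1 \ {0}, ∀ᶠ w in 𝓝[≠] z,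
          (∀ i, t i w = t' i w) ∧ ∀ k, y k w = y' k w) ∧
    (∀ (t : Fin n → ℂ → ℂ) (y : Fin r → ℂ → ℂ),
      (∀ i z, MeromorphicAt (t i) z) → (∀ k z, MeromorphicAt (y k) z) →
      (∀ z, ∀ᶠ w in 𝓝[≠] z, ∀ k,
        y k w ^ X.m k = ∏ i, ∏ j, (t i w - X.c i j) ^ X.e k i j) →
      (∀ i j, ∃ z, ∃ᶠ w in 𝓝[≠] z, t i w ≠ X.c i j) →
      (∀ i, ∀ j ∈ X.bd i, ∀ z, meromorphicOrderAt (fun w => t i w - X.c i j) z ≤ 0) →
      ∀ i, ∃ a : ℂ, ∀ z, ∀ᶠ w in 𝓝[≠] z, t i w = a) := by
  refine ⟨?_, ?_, ?_⟩
  · intro M U ι F L _ _ w x hw hx hgen t y hpt halg hbd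
    exact five X hX hw hx hgen hpt halg hbd
  · intro t y ht hy heq hoff hbd
    exact discs X hX ht hy heq hoff hbd
  · intro t y ht hy heq hoff hbd i
    exact plane X hX ht hy heq hoff hbd i

end Pool.Agent.Helper1K9.Old.ProductCovers
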